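import Pool.Agent.W619.TW.Rot

/-!
# Powers of the generator of an inertia group (for part OB3 of project OB)
-/

set_option autoImplicit false
set_option linter.overlappingInstances false
set_option linter.unusedSectionVars false

open Polynomial FF IntermediateField

namespace Pool.Agent.Y705.OB

open Pool.Agent.W603.LV Pool.Agent.W619.PQ Pool.Agent.W619.PL Pool.Agent.W619.TW

section

variable {k L : Type*} [Field k] [CharZero k] [IsAlgClosed k] [Field L] [Algebra k L]
  {G : Subgroup (L ≃ₐ[k] L)}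

/-- In an inertia group of order `q * l`, `2 ≤ l`, there is an element which fixes the leading
coefficients of the elements whose order is a multiple of `l`. -/
theorem exists_fix [Finite G] (w : Place k L) (e q l : ℕ) (he : e = q * l) (hq : 1 ≤ q)
    (hl : 2 ≤ l) (I : Subgroup G) (hI : Nat.card I = e)
    (hin : ∀ g ∈ I, Inert w (g : L ≃ₐ[k] L)) :
    ∃ g ∈ I, g ≠ 1 ∧ ∀ y : L, y ≠ 0 → (l : ℤ) ∣ w.ord y →
      Ge w (w.ord y + 1) ((g : L ≃ₐ[k] L) y - y) := by
  obtain ⟨g0, hg0, hord, ζ, hζ, hrot⟩ := exists_rot_generator w I hin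
  rw [hI] at hord hζ
  have hζ0 : ζ ≠ 0 := hζ.ne_zero (by rw [he]; positivity)
  have claim : ∀ y : L, y ≠ 0 → ∀ i : ℕ, Ge w (w.ord y + 1)
      (((g0 ^ i : G) : L ≃ₐ[k] L) y - algebraMap k L (ζ ^ ((i : ℤ) * w.ord y)) * y) := by
    intro y hy i
    induction i with
    | zero => left; simp
    | succ i ih =>
      have e1 : ((g0 ^ (i + 1) : G) : L ≃ₐ[k] L) y -
          algebraMap k L (ζ ^ (((i + 1 : ℕ) : ℤ) * w.ord y)) * y =
          (g0 : L ≃ₐ[k] L) (((g0 ^ i : G) : L ≃ₐ[k] L) y -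
            algebraMap k L (ζ ^ ((i : ℤ) * w.ord y)) * y) +
          algebraMap k L (ζ ^ ((i : ℤ) * w.ord y)) *
            ((g0 : L ≃ₐ[k] L) y - algebraMap k L (ζ ^ w.ord y) * y) := by
        have e2 : ((g0 ^ (i + 1) : G) : L ≃ₐ[k] L) y =
            (g0 : L ≃ₐ[k] L) (((g0 ^ i : G) : L ≃ₐ[k] L) y) := by
          rw [pow_succ']
          rfl
        have e3 : ζ ^ (((i + 1 : ℕ) : ℤ) * w.ord y) = ζ ^ ((i : ℤ) * w.ord y) * ζ ^ w.ord y := by
          rw [← zpow_add₀ hζ0]
          congr 1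
          push_cast
          ring
        rw [e2, e3, map_sub, map_mul (g0 : L ≃ₐ[k] L), AlgEquiv.commutes, map_mul]
        ring
      rw [e1]
      refine ((hin g0 hg0).ge ih).add ?_
      have h1 := (Ge.const (P := w) (ζ ^ ((i : ℤ) * w.ord y))).mul (hrot y hy)
      rwa [zero_add] at h1
  refine ⟨g0 ^ q, I.pow_mem hg0 q, ?_, fun y hy hd => ?_⟩
  · intro h1
    have h2 : (g0 : L ≃ₐ[k] L) ^ q = 1 := by
      have := congrArg (fun g : G => (g : L ≃ₐ[k] L)) h1
      simpa using this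
    exact pow_ne_one_of_lt_orderOf (by omega) (by rw [hord, he]; nlinarith) h2
  · obtain ⟨c, hc⟩ := hd
    have h1 := claim y hy q
    have h2 : ζ ^ ((q : ℤ) * w.ord y) = 1 := by
      rw [hc, ← mul_assoc]
      have h3 : (q : ℤ) * l = (e : ℕ) := by rw [he]; push_cast; ring
      rw [h3, zpow_mul, zpow_natCast, hζ.pow_eq_one, one_zpow]
    rwa [h2, map_one, one_mul] at h1

end

end Pool.Agent.Y705.OB
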