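import Pool.Agent.Y174.OB.Stm
import Pool.Agent.Y705.OB.Rot

/-!
# An element of the inertia group which fixes a leading coefficient (part OB3 of project OB)
-/

set_option autoImplicit false
set_option linter.overlappingInstances false
set_option linter.unusedSectionVars false

open FF MvPolynomial IntermediateField Pool.Agent.W619.PQ Pool.Agent.W619.PL Pool.Agent.W619.TW
  Pool.Agent.W603.LV Pool.Agent.W619.Y Pool.Agent.Y174.T

namespace Pool.Agent.Y705.OB

theorem t_PIG : Pool.Agent.Y174.OB.S_PIG := by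
  intro k L _ _ _ _ _ G _ v w e q l _ he hq hl I hI hin
  obtain ⟨g, hg, hg1, h⟩ := exists_fix w e q l he hq hl I hI hin
  obtain ⟨π, hπ0, hπ⟩ := w.surj
  have hle : l ≤ e := by rw [he]; exact Nat.le_mul_of_pos_left l hq
  have hy : w.ord (π ^ (e - l)) = (e : ℤ) - l := by
    rw [w.ord_pow, hπ, mul_one, Nat.cast_sub hle]
  refine ⟨g, hg, hg1, π ^ (e - l), pow_ne_zero _ hπ0, hy, ?_⟩
  have h1 := h _ (pow_ne_zero _ hπ0) (by
    rw [hy, he]
    exact ⟨(q : ℤ) - 1, by push_cast; ring⟩)
  rwa [hy] at h1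

end Pool.Agent.Y705.OB
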